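import Mathlib
import Pool.Agent.Q102.XTree

/-!
MP_936e79_co, Q1 (negative answer): there is no constant `c` with `bgc(G) ≤ c * BGC(G)` for all
finite connected graphs `G`.
-/

namespace Pool.Agent.Results.MP_936e79_co.UnboundedRatio

open Pool.Agent.Q102.XTree

theorem result : ¬ ∃ c : ℝ, ∀ (V : Type) [Fintype V] (G : SimpleGraph V), G.Connected →
    (bgc G : ℝ) ≤ c * (BGC G : ℝ) := by
  rintro ⟨c, hc⟩
  obtain ⟨K, hK⟩ := exists_nat_gt (|c| * 9)
  have h1 := hc _ (xtree (6 * K + 10)) xtree_connected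
  have h2 : K < bgc (xtree (6 * K + 10)) := bgc_gt rfl
  have h3 : BGC (xtree (6 * K + 10)) ≤ 9 := BGC_le
  have h4 : (K : ℝ) < bgc (xtree (6 * K + 10)) := by exact_mod_cast h2
  have h5 : (BGC (xtree (6 * K + 10)) : ℝ) ≤ 9 := by exact_mod_cast h3
  have h6 : c * (BGC (xtree (6 * K + 10)) : ℝ) ≤ |c| * 9 := by
    calc c * (BGC (xtree (6 * K + 10)) : ℝ) ≤ |c| * (BGC (xtree (6 * K + 10)) : ℝ) :=
          mul_le_mul_of_nonneg_right (le_abs_self c) (by positivity)
      _ ≤ |c| * 9 := mul_le_mul_of_nonneg_left h5 (abs_nonneg c)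
  linarith

end Pool.Agent.Results.MP_936e79_co.UnboundedRatio
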